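import Mathlib

/-!
A product of two Carleman operators on `L²(a, b)` need not be a Carleman operator.
-/

open MeasureTheory Set
open scoped ENNReal InnerProductSpace ComplexConjugate

namespace Pool.Agent.Results.MP_fd0bc0_an.NotCarleman

/-- Lebesgue measure on the interval `(a, b)`, for extended reals `a`, `b`. -/
noncomputable abbrev vol (a b : EReal) : Measure ℝ :=
  volume.restrict {x : ℝ | a < (x : EReal) ∧ (x : EReal) < b}

/-- The Hilbert space `L²(μ)` of complex functions. -/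
abbrev H (μ : Measure ℝ) : Type := Lp ℂ 2 μ

/-- A (possibly unbounded) operator in `L²(μ)`: a linear map on a subspace, its domain. -/
abbrev Op (μ : Measure ℝ) : Type := H μ →ₗ.[ℂ] H μ

/-- A Carleman kernel: a (Lebesgue) measurable function of two variables such that almost every
section `y ↦ k x y` is square integrable. -/
def IsCarlemanKernel (μ : Measure ℝ) (k : ℝ → ℝ → ℂ) : Prop :=
  AEStronglyMeasurable (Function.uncurry k) (μ.prod μ) ∧ ∀ᵐ x ∂μ, MemLp (k x) 2 μ

/-- `g` is given by the integral of the kernel `k` against `f`, for `f` and `g` in `L²`. -/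
def Gives {μ : Measure ℝ} (k : ℝ → ℝ → ℂ) (f g : H μ) : Prop :=
  ∀ᵐ x ∂μ, g x = ∫ y, k x y * f y ∂μ

/-- `A` is a Carleman operator: it is given by a Carleman kernel on its whole domain. -/
def IsCarleman {μ : Measure ℝ} (A : Op μ) : Prop :=
  ∃ k, IsCarlemanKernel μ k ∧ ∀ f : A.domain, Gives k f (A f)

/-- The product `A B`, defined on `{f ∈ D(B) | B f ∈ D(A)}`, is a Carleman operator: some Carleman
kernel represents it on this whole domain. -/
def ProductIsCarleman {μ : Measure ℝ} (A B : Op μ) : Prop :=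
  ∃ k, IsCarlemanKernel μ k ∧ ∀ (f : B.domain) (h : B f ∈ A.domain), Gives k f (A ⟨B f, h⟩)

/-- `A` is bounded. -/
def IsBoundedOp {μ : Measure ℝ} (A : Op μ) : Prop :=
  ∃ C : ℝ, ∀ f : A.domain, ‖A f‖ ≤ C * ‖f‖

/-- `B` is densely defined. -/
def DenselyDefined {μ : Measure ℝ} (B : Op μ) : Prop :=
  Dense (B.domain : Set (H μ))

section

variable {μ : Measure ℝ}

lemma integrable_mul {g : ℝ → ℂ} (hg : MemLp g 2 μ) (f : Lp ℂ 2 μ) :
    Integrable (fun y => g y * f y) μ :=
  MemLp.integrable_mul hg (Lp.memLp f)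

lemma T_add {g : ℝ → ℂ} (hg : MemLp g 2 μ) (f h : Lp ℂ 2 μ) :
    ∫ y, g y * (f + h : Lp ℂ 2 μ) y ∂μ = ∫ y, g y * f y ∂μ + ∫ y, g y * h y ∂μ := by
  rw [← integral_add (integrable_mul hg f) (integrable_mul hg h)]
  refine integral_congr_ae ?_
  filter_upwards [Lp.coeFn_add f h] with y hy
  rw [hy, Pi.add_apply, mul_add]

lemma T_smul {g : ℝ → ℂ} (c : ℂ) (f : Lp ℂ 2 μ) :
    ∫ y, g y * (c • f : Lp ℂ 2 μ) y ∂μ = c * ∫ y, g y * f y ∂μ := by
  rw [← integral_const_mul]
  refine integral_congr_ae ?_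
  filter_upwards [Lp.coeFn_smul c f] with y hy
  rw [hy, Pi.smul_apply, smul_eq_mul]; ring

/-- The operator given by the kernel `k` on its maximal domain. -/
noncomputable def maxOp (k : ℝ → ℝ → ℂ) (hk : ∀ x, MemLp (k x) 2 μ) :
    Lp ℂ 2 μ →ₗ.[ℂ] Lp ℂ 2 μ where
  domain :=
    { carrier := {f | MemLp (fun x => ∫ y, k x y * f y ∂μ) 2 μ}
      add_mem' := by
        intro f h hf hh
        have : (fun x => ∫ y, k x y * (f + h : Lp ℂ 2 μ) y ∂μ) =
            (fun x => ∫ y, k x y * f y ∂μ) + fun x => ∫ y, k x y * h y ∂μ := by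
          funext x; exact T_add (hk x) f h
        change MemLp (fun x => ∫ y, k x y * (f + h : Lp ℂ 2 μ) y ∂μ) 2 μ
        rw [this]; exact MemLp.add hf hh
      zero_mem' := by
        have : (fun x => ∫ y, k x y * (0 : Lp ℂ 2 μ) y ∂μ) = fun _ => 0 := by
          funext x
          rw [integral_congr_ae (g := fun _ => (0 : ℂ)), integral_zero]
          filter_upwards [Lp.coeFn_zero ℂ 2 μ] with y hy
          rw [hy]; simp
        change MemLp (fun x => ∫ y, k x y * (0 : Lp ℂ 2 μ) y ∂μ) 2 μ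
        rw [this]; exact MemLp.zero
      smul_mem' := by
        intro c f hf
        have : (fun x => ∫ y, k x y * (c • f : Lp ℂ 2 μ) y ∂μ) =
            c • fun x => ∫ y, k x y * f y ∂μ := by
          funext x; exact T_smul c f
        change MemLp (fun x => ∫ y, k x y * (c • f : Lp ℂ 2 μ) y ∂μ) 2 μ
        rw [this]; exact MemLp.const_smul hf c }
  toFun :=
    { toFun := fun f => MemLp.toLp _ f.2
      map_add' := by
        intro f h
        rw [← MemLp.toLp_add]
        congr 1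
        funext x; exact T_add (hk x) f h
      map_smul' := by
        intro c f
        rw [RingHom.id_apply, ← MemLp.toLp_const_smul]
        congr 1
        funext x; exact T_smul c (f : Lp ℂ 2 μ) }

lemma mem_maxOp {k : ℝ → ℝ → ℂ} {hk : ∀ x, MemLp (k x) 2 μ} {f : Lp ℂ 2 μ} :
    f ∈ (maxOp k hk).domain ↔ MemLp (fun x => ∫ y, k x y * f y ∂μ) 2 μ := Iff.rfl

lemma maxOp_coe (k : ℝ → ℝ → ℂ) (hk : ∀ x, MemLp (k x) 2 μ) (f : (maxOp k hk).domain) :
    ∀ᵐ x ∂μ, (maxOp k hk f : Lp ℂ 2 μ) x = ∫ y, k x y * (f : Lp ℂ 2 μ) y ∂μ :=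
  MemLp.coeFn_toLp f.2

lemma maxOp_carleman (k : ℝ → ℝ → ℂ) (hk : ∀ x, MemLp (k x) 2 μ)
    (hm : AEStronglyMeasurable (Function.uncurry k) (μ.prod μ)) : IsCarleman (maxOp k hk) :=
  ⟨k, ⟨hm, Filter.Eventually.of_forall hk⟩, maxOp_coe k hk⟩

/-- The general construction, from a partition of the line. -/
theorem main [SFinite μ] (N : ℝ → ℕ) (hN : Measurable N) (h0 : ∀ n, μ (N ⁻¹' {n + 1}) ≠ 0)
    (h1 : ∀ n, μ (N ⁻¹' {n + 1}) ≠ ∞) :
    ∃ A B : Op μ, IsCarleman A ∧ IsCarleman B ∧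
      A.domain = ⊤ ∧ IsBoundedOp A ∧ DenselyDefined B ∧ ¬ ProductIsCarleman A B := by
  set s : ℕ → Set ℝ := fun n => N ⁻¹' {n + 1} with hs
  have hsm : ∀ n, MeasurableSet (s n) := fun n => hN (measurableSet_singleton _)
  set m : ℕ → ℝ := fun n => μ.real (s n) with hm
  have hm0 : ∀ n, 0 < m n := fun n => ENNReal.toReal_pos (h0 n) (h1 n)
  set c : ℕ → ℂ := fun n => ((Real.sqrt (m n))⁻¹ : ℝ) with hc
  have hcc : ∀ n, (m n : ℂ) * (c n * c n) = 1 := by
    intro n
    have : (m n : ℝ) * ((Real.sqrt (m n))⁻¹ * (Real.sqrt (m n))⁻¹) = 1 := by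
      rw [← mul_inv, Real.mul_self_sqrt (hm0 n).le, mul_inv_cancel₀ (hm0 n).ne']
    simp only [hc]; exact_mod_cast this
  set v : ℕ → Lp ℂ 2 μ := fun n => indicatorConstLp 2 (hsm n) (h1 n) (c n) with hv
  have hvc : ∀ n, ∀ᵐ x ∂μ, v n x = (s n).indicator (fun _ => c n) x := fun n =>
    indicatorConstLp_coeFn
  have hdis : ∀ i j, i ≠ j → s i ∩ s j = ∅ := by
    intro i j hij
    ext x
    simp only [hs, mem_inter_iff, mem_preimage, mem_singleton_iff, mem_empty_iff_false, iff_false]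
    omega
  have hortho : Orthonormal ℂ v := by
    rw [orthonormal_iff_ite]
    intro i j
    rw [hv]
    simp only
    rw [L2.inner_indicatorConstLp_indicatorConstLp (hsm i) (hsm j) (h1 i) (h1 j)]
    split_ifs with hij
    · subst hij
      have e := hcc i
      rw [inter_self, RCLike.inner_apply, Complex.real_smul]
      have e2 : (starRingEnd ℂ) (c i) = c i := by rw [hc]; exact Complex.conj_ofReal _
      rw [e2]; exact e
    · rw [hdis i j hij]; simp
  -- the vector `ψ = ∑ (n + 1)⁻¹ v n`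
  have hsum : Summable fun n : ℕ => ((n + 1 : ℝ)⁻¹ : ℂ) • v n := by
    have hof := hortho.orthogonalFamily
    have h2 := hof.summable_iff_norm_sq_summable (fun n : ℕ => ((n + 1 : ℝ)⁻¹ : ℂ))
    have h3 : Summable fun n : ℕ => ‖((n + 1 : ℝ)⁻¹ : ℂ)‖ ^ 2 := by
      have : Summable fun n : ℕ => (1 : ℝ) / ((n : ℝ) + 1) ^ 2 := by
        have := (summable_nat_add_iff 1).2 (Real.summable_one_div_nat_pow.2 (one_lt_two))
        simpa using this
      refine this.congr fun n => ?_
      rw [norm_inv, Complex.norm_real, Real.norm_of_nonneg (by positivity)]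
      rw [inv_pow, one_div]
    simpa using h2.2 h3
  obtain ⟨ψ, hψ⟩ := hsum
  have hinner : ∀ i, ⟪v i, ψ⟫_ℂ = ((i + 1 : ℝ)⁻¹ : ℂ) := by
    intro i
    have e1 := hψ.mapL (innerSL ℂ (v i))
    have e2 : HasSum (fun n : ℕ => innerSL ℂ (v i) (((n + 1 : ℝ)⁻¹ : ℂ) • v n))
        ((i + 1 : ℝ)⁻¹ : ℂ) := by
      have : (fun n : ℕ => innerSL ℂ (v i) (((n + 1 : ℝ)⁻¹ : ℂ) • v n)) =
          fun n : ℕ => if n = i then ((i + 1 : ℝ)⁻¹ : ℂ) else 0 := by
        funext n
        rw [innerSL_apply_apply, inner_smul_right, orthonormal_iff_ite.1 hortho i n]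
        rcases eq_or_ne n i with rfl | h
        · simp
        · simp [h, Ne.symm h]
      rw [this]
      exact hasSum_ite_eq i _
    exact e1.unique e2
  have hψL : MemLp (ψ : ℝ → ℂ) 2 μ := Lp.memLp ψ
  have hψL' : MemLp (fun y => conj (ψ y)) 2 μ := hψL.star
  have hinnerψ : ∀ f : Lp ℂ 2 μ, ⟪ψ, f⟫_ℂ = ∫ y, conj (ψ y) * f y ∂μ := by
    intro f
    rw [L2.inner_def]
    refine integral_congr_ae (Filter.Eventually.of_forall fun y => ?_)
    simp only [RCLike.inner_apply]; ring
  -- the kernels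
  set kA : ℝ → ℝ → ℂ := fun x y => ψ x * conj (ψ y) with hkA
  have hkA2 : ∀ x, MemLp (kA x) 2 μ := fun x => hψL'.const_mul (ψ x)
  have hTA : ∀ f : Lp ℂ 2 μ, (fun x => ∫ y, kA x y * f y ∂μ) = fun x => ⟪ψ, f⟫_ℂ * ψ x := by
    intro f
    funext x
    rw [hinnerψ, mul_comm _ (ψ x), ← integral_const_mul]
    simp only [hkA, mul_assoc]
  have hmA : AEStronglyMeasurable (Function.uncurry kA) (μ.prod μ) := by
    have e1 : AEStronglyMeasurable (fun p : ℝ × ℝ => (ψ : ℝ → ℂ) p.1) (μ.prod μ) :=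
      hψL.1.comp_fst
    have e2 : AEStronglyMeasurable (fun p : ℝ × ℝ => conj ((ψ : ℝ → ℂ) p.2)) (μ.prod μ) :=
      hψL'.1.comp_snd
    exact e1.mul e2
  set K : ℕ × ℕ → ℂ := fun p => if p.1 = p.2 ∧ p.1 ≠ 0 then (p.1 : ℂ) / (m (p.1 - 1) : ℂ) else 0
    with hK
  set kB : ℝ → ℝ → ℂ := fun x y => K (N x, N y) with hkB
  have hmB : AEStronglyMeasurable (Function.uncurry kB) (μ.prod μ) := by
    have e1 : Measurable (fun p : ℝ × ℝ => (N p.1, N p.2)) :=
      (hN.comp measurable_fst).prodMk (hN.comp measurable_snd)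
    have e2 : Measurable K := Measurable.of_discrete
    exact (e2.comp e1).aestronglyMeasurable
  have hkBx : ∀ x n, N x = n + 1 → kB x = (s n).indicator fun _ => ((n + 1 : ℕ) : ℂ) / (m n : ℂ) := by
    intro x n hx
    funext y
    simp only [hkB, hK, hx, indicator, hs, mem_preimage, mem_singleton_iff]
    by_cases h : N y = n + 1
    · simp [h]
    · have h' : ¬ (n + 1 = N y) := fun e => h e.symm
      simp [h, h']
  have hkBx0 : ∀ x, N x = 0 → kB x = fun _ => 0 := by
    intro x hx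
    funext y
    simp [hkB, hK, hx]
  have hkB2 : ∀ x, MemLp (kB x) 2 μ := by
    intro x
    rcases Nat.eq_zero_or_eq_succ_pred (N x) with h | h
    · rw [hkBx0 x h]; exact MemLp.zero
    · rw [hkBx x (N x).pred (by rw [← Nat.succ_eq_add_one]; exact h)]
      exact memLp_indicator_const 2 (hsm _) _ (Or.inr (h1 _))
  have hTB : ∀ f : Lp ℂ 2 μ, ∀ x n, N x = n + 1 →
      ∫ y, kB x y * f y ∂μ = ((n + 1 : ℕ) : ℂ) / (m n : ℂ) * ∫ y in s n, f y ∂μ := by
    intro f x n hx
    rw [hkBx x n hx, ← integral_const_mul, ← integral_indicator (hsm n)]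
    refine integral_congr_ae (Filter.Eventually.of_forall fun y => ?_)
    by_cases hy : y ∈ s n <;> simp [hy]
  have hTB0 : ∀ f : Lp ℂ 2 μ, ∀ x, N x = 0 → ∫ y, kB x y * f y ∂μ = 0 := by
    intro f x hx
    rw [hkBx0 x hx]; simp
  have hsv : ∀ i j, ∫ y in s i, v j y ∂μ = if i = j then (m i : ℂ) * c i else 0 := by
    intro i j
    have e1 : ∫ y in s i, v j y ∂μ = ∫ y in s i, (s j).indicator (fun _ => c j) y ∂μ :=
      integral_congr_ae (ae_restrict_of_ae (hvc j))
    rw [e1, setIntegral_indicator (hsm j)]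
    split_ifs with h
    · subst h
      rw [inter_self, setIntegral_const, Complex.real_smul]
    · rw [hdis i j h]; simp
  have hTBv : ∀ j, (fun x => ∫ y, kB x y * v j y ∂μ) =
      (s j).indicator fun _ => ((j + 1 : ℕ) : ℂ) * c j := by
    intro j
    funext x
    rcases Nat.eq_zero_or_eq_succ_pred (N x) with h | h
    · rw [hTB0 _ _ h, indicator_of_notMem]
      simp only [hs, mem_preimage, mem_singleton_iff]; omega
    · have h' : N x = (N x).pred + 1 := h
      rw [hTB _ _ _ h', hsv]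
      split_ifs with hj
      · rw [indicator_of_mem]
        · rw [hj, ← mul_assoc, div_mul_cancel₀ _ (by exact_mod_cast (hm0 j).ne')]
        · simp only [hs, mem_preimage, mem_singleton_iff]; omega
      · rw [indicator_of_notMem, mul_zero]
        simp only [hs, mem_preimage, mem_singleton_iff]; omega
  refine ⟨maxOp kA hkA2, maxOp kB hkB2, maxOp_carleman kA hkA2 hmA, maxOp_carleman kB hkB2 hmB,
    ?_, ?_, ?_, ?_⟩
  · rw [eq_top_iff]
    intro f _
    rw [mem_maxOp, hTA]
    exact hψL.const_mul _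
  · refine ⟨‖ψ‖ * ‖ψ‖, fun f => ?_⟩
    have e : maxOp kA hkA2 f = ⟪ψ, (f : Lp ℂ 2 μ)⟫_ℂ • ψ := by
      refine Lp.ext ?_
      filter_upwards [maxOp_coe kA hkA2 f, Lp.coeFn_smul (⟪ψ, (f : Lp ℂ 2 μ)⟫_ℂ) ψ] with x h1 h2
      rw [h1, h2, Pi.smul_apply, smul_eq_mul]
      exact congrFun (hTA f) x
    rw [e, norm_smul]
    calc ‖⟪ψ, (f : Lp ℂ 2 μ)⟫_ℂ‖ * ‖ψ‖ ≤ (‖ψ‖ * ‖(f : Lp ℂ 2 μ)‖) * ‖ψ‖ := by
          gcongr; exact norm_inner_le_norm _ _
      _ = ‖ψ‖ * ‖ψ‖ * ‖f‖ := by rw [Submodule.coe_norm]; ring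
  · -- density of the domain of `B`
    have hvmem : ∀ n, v n ∈ (maxOp kB hkB2).domain := by
      intro n
      rw [mem_maxOp, hTBv]
      exact memLp_indicator_const 2 (hsm _) _ (Or.inr (h1 _))
    rw [DenselyDefined, Submodule.dense_iff_topologicalClosure_eq_top, ← Submodule.orthogonal_orthogonal_eq_closure]
    rw [Submodule.orthogonal_eq_top_iff, Submodule.eq_bot_iff]
    intro h hh
    have e1 : ∀ n, ∫ y in s n, h y ∂μ = 0 := by
      intro n
      have e2 := (Submodule.mem_orthogonal _ _).1 hh (v n) (hvmem n)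
      rw [hv] at e2
      simp only at e2
      rw [L2.inner_indicatorConstLp_eq_inner_setIntegral ℂ (hsm n) (h1 n)] at e2
      rw [RCLike.inner_apply] at e2
      rcases mul_eq_zero.1 e2 with e3 | e3
      · exact e3
      · exfalso
        have := hcc n
        have e4 : c n = 0 := by simpa using e3
        rw [e4] at this; simp at this
    have e2 : h ∈ (maxOp kB hkB2).domain := by
      rw [mem_maxOp]
      have : (fun x => ∫ y, kB x y * h y ∂μ) = fun _ => 0 := by
        funext x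
        rcases Nat.eq_zero_or_eq_succ_pred (N x) with hx | hx
        · exact hTB0 _ _ hx
        · have h' : N x = (N x).pred + 1 := hx
          rw [hTB _ _ _ h', e1, mul_zero]
      rw [this]; exact MemLp.zero
    exact inner_self_eq_zero.1 ((Submodule.mem_orthogonal _ _).1 hh h e2)
  · rintro ⟨k, ⟨-, hk⟩, hrep⟩
    have hvmem : ∀ n, v n ∈ (maxOp kB hkB2).domain := by
      intro n
      rw [mem_maxOp, hTBv]
      exact memLp_indicator_const 2 (hsm _) _ (Or.inr (h1 _))
    have hBv : ∀ n, maxOp kB hkB2 ⟨v n, hvmem n⟩ = ((n + 1 : ℕ) : ℂ) • v n := by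
      intro n
      refine Lp.ext ?_
      filter_upwards [maxOp_coe kB hkB2 ⟨v n, hvmem n⟩, Lp.coeFn_smul (((n + 1 : ℕ) : ℂ)) (v n),
        hvc n] with x h1 h2 h3
      rw [h1, h2, Pi.smul_apply, h3, congrFun (hTBv n) x]
      by_cases hx : x ∈ s n <;> simp [hx]
    have hAB : ∀ n, ∀ᵐ x ∂μ, ψ x = ∫ y, k x y * v n y ∂μ := by
      intro n
      have hd : maxOp kB hkB2 ⟨v n, hvmem n⟩ ∈ (maxOp kA hkA2).domain := by
        rw [mem_maxOp, hTA]
        exact hψL.const_mul _
      filter_upwards [hrep ⟨v n, hvmem n⟩ hd, maxOp_coe kA hkA2 ⟨_, hd⟩] with x h1 h2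
      rw [← h1, h2, congrFun (hTA _) x]
      rw [hBv, inner_smul_right, ← inner_conj_symm, hinner, map_inv₀]
      have : (starRingEnd ℂ) ((n + 1 : ℝ) : ℂ) = ((n + 1 : ℝ) : ℂ) := Complex.conj_ofReal _
      rw [this]
      have h3 : ((n + 1 : ℕ) : ℂ) * ((n + 1 : ℝ) : ℂ)⁻¹ = 1 := by
        have : ((n + 1 : ℝ) : ℂ) = ((n + 1 : ℕ) : ℂ) := by push_cast; ring
        rw [this]
        exact mul_inv_cancel₀ (by exact_mod_cast Nat.succ_ne_zero n)
      rw [h3, one_mul]
    have hz : ∀ᵐ x ∂μ, ψ x = 0 := by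
      filter_upwards [ae_all_iff.2 hAB, hk] with x hx hkx
      have hks : MemLp (fun y => conj (k x y)) 2 μ := hkx.star
      have hb := hortho.inner_products_summable (x := hks.toLp _)
      have hterm : ∀ n, ‖⟪v n, hks.toLp _⟫_ℂ‖ ^ 2 = ‖ψ x‖ ^ 2 := by
        intro n
        rw [hx n, ← inner_conj_symm, L2.inner_def]
        have : ∫ y, ⟪(hks.toLp _ : ℝ → ℂ) y, v n y⟫_ℂ ∂μ = ∫ y, k x y * v n y ∂μ := by
          refine integral_congr_ae ?_
          filter_upwards [MemLp.coeFn_toLp hks] with y hy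
          rw [hy, RCLike.inner_apply, Complex.conj_conj]; ring
        rw [this, RCLike.norm_conj]
      have h4 : Summable fun _ : ℕ => ‖ψ x‖ ^ 2 := hb.congr hterm
      have h5 := (summable_const_iff _).1 h4
      simpa using h5
    have hψ0 : ψ = 0 := by
      refine Lp.ext ?_
      filter_upwards [hz, Lp.coeFn_zero ℂ 2 μ] with x h1 h2
      rw [h1, h2]; rfl
    have := hinner 0
    rw [hψ0] at this
    simp at this

end

/-- For every interval `(a, b)`, `-∞ ≤ a < b ≤ ∞`, there are Carleman operators `A` and `B` on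
`L²(a, b)` such that no Carleman kernel represents the product `A B` on its whole domain
`{f ∈ D(B) | B f ∈ D(A)}`. Moreover `A` is everywhere defined and bounded, and `B` is densely
defined. -/
theorem result (a b : EReal) (hab : a < b) :
    ∃ A B : Op (vol a b), IsCarleman A ∧ IsCarleman B ∧
      A.domain = ⊤ ∧ IsBoundedOp A ∧ DenselyDefined B ∧ ¬ ProductIsCarleman A B := by
  obtain ⟨c, hac, hcb⟩ := EReal.lt_iff_exists_real_btwn.1 hab
  obtain ⟨d, hcd, hdb⟩ := EReal.lt_iff_exists_real_btwn.1 hcb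
  have hcd' : c < d := by exact_mod_cast hcd
  set N : ℝ → ℕ := fun x => if c < x ∧ x < d then ⌊(d - c) / (x - c)⌋₊ else 0 with hN
  have hmN : Measurable N := by
    refine Measurable.ite ?_ ?_ measurable_const
    · exact measurableSet_Ioo
    · exact Nat.measurable_floor.comp (by fun_prop)
  have hsub : ∀ n : ℕ, N ⁻¹' {n + 1} ⊆ Ioo c d := by
    intro n x hx
    by_contra h
    have : N x = 0 := by simp only [hN]; exact if_neg h
    rw [mem_preimage, this] at hx
    simp at hx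
  have hint : ∀ n : ℕ, Ioo (c + (d - c) / (n + 2)) (c + (d - c) / (n + 1)) ⊆ N ⁻¹' {n + 1} := by
    intro n x hx
    have hp : 0 < d - c := by linarith
    have h1 : c < x := lt_trans (by have : 0 < (d - c) / (n + 2) := by positivity
                                    linarith) hx.1
    have h2 : x < d := lt_of_lt_of_le hx.2 (by
      have : (d - c) / (n + 1) ≤ d - c := div_le_self hp.le (by linarith [Nat.cast_nonneg (α := ℝ) n])
      linarith)
    have hxc : 0 < x - c := by linarith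
    rw [mem_preimage, mem_singleton_iff]
    simp only [hN]
    rw [if_pos ⟨h1, h2⟩, Nat.floor_eq_iff (by positivity)]
    have h3 : (d - c) / (n + 2) < x - c := by linarith [hx.1]
    have h4 : x - c < (d - c) / (n + 1) := by linarith [hx.2]
    rw [div_lt_iff₀ (by positivity)] at h3
    rw [lt_div_iff₀ (by positivity)] at h4
    constructor
    · rw [le_div_iff₀ hxc]; push_cast; nlinarith
    · rw [div_lt_iff₀ hxc]; push_cast; nlinarith
  have hIoo : Ioo c d ⊆ {x : ℝ | a < (x : EReal) ∧ (x : EReal) < b} := by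
    intro x hx
    exact ⟨hac.trans (by exact_mod_cast hx.1), lt_trans (by exact_mod_cast hx.2) hdb⟩
  refine main N hmN (fun n => ?_) (fun n => ?_)
  · have h1 : vol a b (N ⁻¹' {n + 1}) = volume (N ⁻¹' {n + 1}) := by
      rw [Measure.restrict_apply (hmN (measurableSet_singleton _))]
      rw [inter_eq_left.2 ((hsub n).trans hIoo)]
    rw [h1]
    have h2 : 0 < volume (Ioo (c + (d - c) / (n + 2)) (c + (d - c) / ((n : ℝ) + 1))) := by
      rw [Real.volume_Ioo, ENNReal.ofReal_pos]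
      have : (d - c) / ((n : ℝ) + 2) < (d - c) / ((n : ℝ) + 1) := by
        have hp : 0 < d - c := by linarith
        gcongr; linarith
      linarith
    exact (h2.trans_le (measure_mono (hint n))).ne'
  · have h1 : vol a b (N ⁻¹' {n + 1}) ≤ volume (Ioo c d) :=
      (Measure.restrict_apply_le _ _).trans (measure_mono (hsub n))
    exact (h1.trans_lt (by rw [Real.volume_Ioo]; exact ENNReal.ofReal_lt_top)).ne

end Pool.Agent.Results.MP_fd0bc0_an.NotCarleman
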